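import Pool.Agent.Q17.DM.Fin
import Pool.Agent.Q17.DM.Gro2

/-!
# Dade's ordinary conjecture: wreath products, congruences and growth

From `Pool.Agent.Q17.DC.Defs`: `Ch p ⊤ ⊥ σ` says that `σ` is the set of the members
`D₁ < ... < D_n` of a chain `1 < D₁ < ... < D_n` of `p`-subgroups, `chainStabilizer σ` is the
stabiliser of `σ`, and `altX p ⊤ ⊥ w` is the sum of the `(-1) ^ n * w σ` over representatives `σ` of
the conjugacy classes of these chains. `IsIrr`, `omega`, `IsBlock` and `IsDefectGroup` are from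
`Pool.Agent.H254R3.IN.Defs`.
-/

set_option autoImplicit false

open scoped Classical
open Pool.Agent.H254R3.IN Pool.Agent.Q17.DC Pool.Agent.Y63.KR

namespace Pool.Agent.Results.MP_3f89b9_al.CongruencesAndGrowth

/-- The block `B` of `G` is induced by the block of the character `θ` of the subgroup `L`:
`λ_B(K⁺) = λ_θ((K ∩ L)⁺)` for the class `K` of every `x`. -/
def Induces {G : Type} [Group G] (O : ValuationSubring ℂ) (B : Set (G → ℂ)) {L : Subgroup G}
    (θ : L → ℂ) : Prop :=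
  ∀ χ ∈ B, ∀ x : G, omega χ x - ∑ᶠ y : {y : L // IsConj x (y : G)}, θ y / θ 1 ∈ O.nonunits

/-- `θ` is an irreducible character of the subgroup `L` of `p`-defect `d` and its block induces
`B`. -/
structure Counted {G : Type} [Group G] (p : ℕ) (O : ValuationSubring ℂ) (d : ℕ)
    (B : Set (G → ℂ)) (L : Subgroup G) (θ : L → ℂ) : Prop where
  irr : IsIrr θ
  ind : Induces O B θ
  defect : ∃ n : ℕ, (n : ℂ) = θ 1 ∧ (Nat.card L).factorization p = d + n.factorization p

/-- Dade's alternating sum `∑ (-1)^|σ| k^d(B_σ)` over representatives of the conjugacy classes of the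
chains of nontrivial `p`-subgroups. -/
noncomputable def dadeSum {G : Type} [Group G] (p : ℕ) (O : ValuationSubring ℂ) (d : ℕ)
    (B : Set (G → ℂ)) : ℤ :=
  altX p ⊤ ⊥ fun σ =>
    (Nat.card {θ : chainStabilizer σ → ℂ // Counted p O d B (chainStabilizer σ) θ} : ℤ)

/-- The polynomial `∑ S(B, d) t^d` of the alternating sums (they are zero if `p ^ d` is larger than
the `p`-part of `|G|`, see the theorem). -/
noncomputable def dadePoly {G : Type} [Group G] (p : ℕ) (O : ValuationSubring ℂ)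
    (B : Set (G → ℂ)) : Polynomial ℤ :=
  ∑ d ∈ Finset.range ((Nat.card G).factorization p + 1), Polynomial.monomial d (dadeSum p O d B)

/-- the wreath product of `G` with the cyclic group of order `r` in its regular action -/
abbrev WreathCyclic (G : Type) [Group G] (r : ℕ) : Type :=
  (Multiplicative (ZMod r) → G) ⋊[mulAutArrow (G := Multiplicative (ZMod r))
    (A := Multiplicative (ZMod r)) (M := G)] Multiplicative (ZMod r)

/-- `χ` lies over the character `∏ ω, f ω` of the base group: `χ` is the induced character (`f` not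
constant) or one of the extensions (`f` constant) -/
def LiesOver {G : Type} [Group G] {r : ℕ} [Fact r.Prime] (χ : WreathCyclic G r → ℂ)
    (f : Multiplicative (ZMod r) → G → ℂ) : Prop :=
  ((∃ ω ω', f ω ≠ f ω') ∧ ∀ x, χ x = if x.right = 1 then
    ∑ a : Multiplicative (ZMod r), ∏ ω, f (a * ω) (x.left ω) else 0) ∨
  ∃ θ : G → ℂ, (∀ ω, f ω = θ) ∧ ∃ l : Multiplicative (ZMod r) →* ℂˣ, ∀ x, χ x =
    if x.right = 1 then ∏ ω, θ (x.left ω) else (l x.right : ℂ) * θ ((x ^ r).left 1)

/-- the characters of the wreath product which lie over products of members of `B` -/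
def wreathBlock {G : Type} [Group G] (r : ℕ) [Fact r.Prime] (B : Set (G → ℂ)) :
    Set (WreathCyclic G r → ℂ) :=
  {χ | ∃ f : Multiplicative (ZMod r) → G → ℂ, (∀ ω, f ω ∈ B) ∧ LiesOver χ f}

/-- the block `B₁ ⊗ B₂` of the direct product -/
def prodBlock {G₁ G₂ : Type} (B₁ : Set (G₁ → ℂ)) (B₂ : Set (G₂ → ℂ)) : Set (G₁ × G₂ → ℂ) :=
  {χ | ∃ χ₁ ∈ B₁, ∃ χ₂ ∈ B₂, χ = fun x => χ₁ x.1 * χ₂ x.2}

/-- `O_p(G) = 1` -/
def NoNormal (p : ℕ) (G : Type) [Group G] : Prop :=
  ∀ Q : Subgroup G, Q.Normal → IsPGroup p Q → Q = ⊥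

theorem wreathBlock_eq {G : Type} [Group G] (r : ℕ) [Fact r.Prime] (B : Set (G → ℂ)) :
    wreathBlock r B = Pool.Agent.Q17.AM.LX (r := r) B := by
  ext χ
  constructor
  · rintro ⟨f, hf, ⟨hn, hχ⟩ | ⟨θ, hθ, l, hχ⟩⟩
    · exact Or.inl ⟨f, hf, hn, funext hχ⟩
    · exact Or.inr ⟨θ, hθ 1 ▸ hf 1, l, funext hχ⟩
  · rintro (⟨f, hf, hn, rfl⟩ | ⟨θ, hθ, l, rfl⟩)
    · exact ⟨f, hf, Or.inl ⟨hn, fun x => rfl⟩⟩
    · exact ⟨fun _ => θ, fun _ => hθ, Or.inr ⟨θ, fun _ => rfl, l, fun x => rfl⟩⟩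

theorem sum_eq {G : Type} [Group G] (p : ℕ) (O : ValuationSubring ℂ) (d : ℕ)
    (B : Set (G → ℂ)) : dadeSum p O d B = Pool.Agent.Q17.DM.DO p O B d := by
  unfold dadeSum Pool.Agent.Q17.DM.DO
  refine altX_congr fun σ _ => ?_
  congr 1
  exact Nat.card_congr (Equiv.subtypeEquivRight fun θ => ⟨fun h => ⟨h.irr, fun χ hχ x _ =>
    h.ind χ hχ x, h.defect⟩, fun h => ⟨h.irr, fun χ hχ x => h.ind χ hχ x trivial, h.defect⟩⟩)

theorem poly_eq {G : Type} [Group G] (p : ℕ) (O : ValuationSubring ℂ) (B : Set (G → ℂ)) :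
    dadePoly p O B = Pool.Agent.Q275.DM.PD p O B := by
  unfold dadePoly Pool.Agent.Q275.DM.PD
  exact Finset.sum_congr rfl fun d _ => by rw [sum_eq]

theorem coeff_eq {G : Type} [Group G] [Finite G] (p : ℕ) (O : ValuationSubring ℂ)
    (B : Set (G → ℂ)) (d : ℕ) : (dadePoly p O B).coeff d = dadeSum p O d B := by
  rw [poly_eq, Pool.Agent.Q275.DM.coeff_PD, sum_eq]

theorem sum_eq' {G : Type} [Group G] (p : ℕ) (O : ValuationSubring ℂ) (d : ℕ)
    (B : Set (G → ℂ)) : dadeSum p O d B =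
      Pool.Agent.Q17.OS.DG p O ⊥ ⊥ (fun _ => 1) d B := by
  rw [sum_eq]
  unfold Pool.Agent.Q17.DM.DO Pool.Agent.Q17.OS.DG
  refine altX_congr fun σ _ => ?_
  have h1 : chainStabilizer σ = Ns ⊤ σ := (top_inf_eq _).symm
  rw [h1]
  congr 1
  refine Nat.card_congr (Equiv.subtypeEquivRight fun θ => ⟨fun h => ⟨h.irr, fun χ hχ x =>
    h.ind χ hχ x trivial, ?_, h.defect⟩, fun h => ⟨h.irr, fun χ hχ x _ => h.ind χ hχ x,
    h.defect⟩⟩)
  intro x y hx
  have h1 : x = 1 := Subtype.ext (Subgroup.mem_bot.mp hx)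
  rw [h1, one_mul, one_mul]

theorem prod_sum {p : ℕ} [Fact p.Prime] {O : ValuationSubring ℂ} (hO : (p : ℂ) ∈ O.nonunits)
    {G₁ G₂ : Type} [Group G₁] [Group G₂] [Fintype G₁] [Fintype G₂]
    {B₁ : Set (G₁ → ℂ)} {B₂ : Set (G₂ → ℂ)} (hB₁ : IsBlock O B₁) (hB₂ : IsBlock O B₂) (d : ℕ) :
    dadeSum p O d (prodBlock B₁ B₂) =
      ∑ q ∈ Finset.range (d + 1), dadeSum p O q B₁ * dadeSum p O (d - q) B₂ := by
  have h := Pool.Agent.Q17.OS.prod_formula hO (⊥ : Subgroup G₁) ⊥ (⊥ : Subgroup G₂) ⊥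
    IsPGroup.of_bot IsPGroup.of_bot bot_le bot_le (fun _ => 1) (fun _ => 1) rfl rfl hB₁ hB₂ d
  simp only [sum_eq']
  rw [← h]
  have h0 : ((⊥ : Subgroup G₁).prod (⊥ : Subgroup G₂)) = ⊥ := Subgroup.bot_prod_bot
  rw [h0]
  unfold Pool.Agent.Q17.OS.DG
  refine altX_congr fun σ _ => ?_
  congr 1
  refine Nat.card_congr (Equiv.subtypeEquivRight fun θ => ⟨fun h => ⟨h.irr, h.ind, ?_, h.defect⟩,
    fun h => ⟨h.irr, h.ind, ?_, h.defect⟩⟩)
  · intro x y hx
    have h3 : x = 1 := Subtype.ext (Subgroup.mem_bot.mp hx)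
    rw [h3, one_mul, one_mul, one_mul]
  · intro x y hx
    have h3 : x = 1 := Subtype.ext (Subgroup.mem_bot.mp hx)
    rw [h3, one_mul, one_mul]

theorem prod_poly {p : ℕ} [Fact p.Prime] {O : ValuationSubring ℂ} (hO : (p : ℂ) ∈ O.nonunits)
    {G₁ G₂ : Type} [Group G₁] [Group G₂] [Fintype G₁] [Fintype G₂]
    {B₁ : Set (G₁ → ℂ)} {B₂ : Set (G₂ → ℂ)} (hB₁ : IsBlock O B₁) (hB₂ : IsBlock O B₂) :
    dadePoly p O (prodBlock B₁ B₂) = dadePoly p O B₁ * dadePoly p O B₂ := by
  ext d
  rw [coeff_eq, prod_sum hO hB₁ hB₂, Polynomial.coeff_mul,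
    Finset.Nat.sum_antidiagonal_eq_sum_range_succ
      (fun i j => (dadePoly p O B₁).coeff i * (dadePoly p O B₂).coeff j)]
  exact Finset.sum_congr rfl fun q _ => by rw [coeff_eq, coeff_eq]

theorem op_prod {p : ℕ} {G₁ G₂ : Type} [Group G₁] [Group G₂] (h1 : NoNormal p G₁)
    (h2 : NoNormal p G₂) : NoNormal p (G₁ × G₂) := by
  intro Q hQ hp
  rw [Subgroup.eq_bot_iff_forall]
  intro x hx
  have h3 := h1 (Q.map (MonoidHom.fst G₁ G₂)) (hQ.map _ Prod.fst_surjective) (hp.map _)
  have h4 := h2 (Q.map (MonoidHom.snd G₁ G₂)) (hQ.map _ Prod.snd_surjective) (hp.map _)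
  have h5 : x.1 ∈ Q.map (MonoidHom.fst G₁ G₂) := ⟨x, hx, rfl⟩
  have h6 : x.2 ∈ Q.map (MonoidHom.snd G₁ G₂) := ⟨x, hx, rfl⟩
  rw [h3, Subgroup.mem_bot] at h5
  rw [h4, Subgroup.mem_bot] at h6
  exact Prod.ext h5 h6

/-- a class of groups closed under isomorphism and direct products of two groups -/
def Closed (X : ∀ (P : Type) [Group P], Prop) : Prop :=
  (∀ (P Q : Type) [Group P] [Group Q], Nonempty (P ≃* Q) → X P → X Q) ∧
  ∀ (P Q : Type) [Group P] [Group Q], X P → X Q → X (P × Q)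

theorem Closed.pow {X : ∀ (P : Type) [Group P], Prop} (h : Closed X) (P : Type) [Group P] (n : ℕ)
    (hn : 1 ≤ n) (hP : X P) : X (Fin n → P) := by
  induction n, hn using Nat.le_induction with
  | base => exact h.1 _ _ ⟨(MulEquiv.funUnique (Fin 1) P).symm⟩ hP
  | succ n _ ih =>
      refine h.1 _ _ ⟨?_⟩ (h.2 _ _ hP ih)
      exact
        { toFun := fun x => Fin.cons x.1 x.2
          invFun := fun f => (f 0, Fin.tail f)
          left_inv := fun x => by
            refine Prod.ext ?_ ?_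
            · change (Fin.cons x.1 x.2 : Fin (n + 1) → P) 0 = x.1
              rw [Fin.cons_zero]
            · change Fin.tail (Fin.cons x.1 x.2 : Fin (n + 1) → P) = x.2
              rw [Fin.tail_cons]
          right_inv := fun f => Fin.cons_self_tail f
          map_mul' := fun x y => by
            funext i
            refine Fin.cases ?_ (fun j => ?_) i
            · rfl
            · rfl }

/-- the data of the conjecture: a finite group `G` in the class `Y` with `O_p(G) = 1` and a block `B`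
with a nontrivial defect group in the class `X` -/
structure Data (p : ℕ) (O : ValuationSubring ℂ) (X Y : ∀ (P : Type) [Group P], Prop) : Type 1 where
  G : Type
  grp : Group G
  fin : Fintype G
  hY : Y G
  hG : NoNormal p G
  B : Set (G → ℂ)
  hB : IsBlock O B
  D : Subgroup G
  hD : IsDefectGroup p O B D
  hne : D ≠ ⊥
  hX : X D

/-- the polynomial of the data -/
noncomputable def Data.poly {p : ℕ} {O : ValuationSubring ℂ}
    {X Y : ∀ (P : Type) [Group P], Prop} (x : Data p O X Y) : Polynomial ℤ :=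
  @dadePoly x.G x.grp p O x.B

/-- the order of the group -/
noncomputable def Data.card {p : ℕ} {O : ValuationSubring ℂ}
    {X Y : ∀ (P : Type) [Group P], Prop} (x : Data p O X Y) : ℕ := Nat.card x.G

theorem Data.mul {p : ℕ} [Fact p.Prime] {O : ValuationSubring ℂ} (hO : (p : ℂ) ∈ O.nonunits)
    {X Y : ∀ (P : Type) [Group P], Prop} (hX : Closed X)
    (hY : ∀ (G H : Type) [Group G] [Group H] [Finite G] [Finite H], Y G → Y H → Y (G × H))
    (x y : Data p O X Y) : ∃ z : Data p O X Y, z.poly = x.poly * y.poly := by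
  obtain ⟨G, gG, fG, hYG, hG, B, hB, D, hD, hne, hXD⟩ := x
  obtain ⟨G', gG', fG', hYG', hG', B', hB', D', hD', hne', hXD'⟩ := y
  refine ⟨⟨G × G', inferInstance, inferInstance, hY G G' hYG hYG', op_prod hG hG',
    prodBlock B B', Pool.Agent.Q111.OS.block_TB hB hB', D.prod D',
    Pool.Agent.Q111.OS.defect_TB hB hB' hD hD', ?_,
    hX.1 _ _ ⟨(Subgroup.prodEquiv D D').symm⟩ (hX.2 _ _ hXD hXD')⟩, prod_poly hO hB hB'⟩
  intro h
  refine hne ((Subgroup.eq_bot_iff_forall D).mpr fun g hg => ?_)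
  have h2 : (g, (1 : G')) ∈ D.prod D' := ⟨hg, D'.one_mem⟩
  rw [h, Subgroup.mem_bot] at h2
  exact congrArg Prod.fst h2

/-- the wreath product -/
theorem Data.wreath {p r : ℕ} [Fact p.Prime] [Fact r.Prime] (hpr : p ≠ r)
    {O : ValuationSubring ℂ} (hO : (p : ℂ) ∈ O.nonunits)
    {X Y : ∀ (P : Type) [Group P], Prop} (hX : Closed X)
    (hY : ∀ (G : Type) [Group G] [Finite G], Y G → Y (WreathCyclic G r))
    (x : Data p O X Y) : ∃ z : Data p O X Y, z.card = x.card ^ r * r ∧
      (r : Polynomial ℤ) * z.poly = x.poly ^ r + ((r ^ 2 - 1 : ℕ) : Polynomial ℤ) *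
        Polynomial.expand ℤ r x.poly := by
  obtain ⟨G, gG, fG, hYG, hG, B, hB, D, hD, hne, hXD⟩ := x
  have hP := Pool.Agent.Q17.AM.p_pos G p O hO B hB D hD hne
  have h1 := Pool.Agent.Q17.AM.p_blk G p r hpr O hO B hB hP
  have hfin : Finite (WreathCyclic G r) :=
    Finite.of_equiv _ SemidirectProduct.equivProd.symm
  have hr0 : NeZero r := ⟨(Fact.out : r.Prime).ne_zero⟩
  refine ⟨⟨WreathCyclic G r, inferInstance, Fintype.ofFinite _, hY G hYG,
    Pool.Agent.Q17.DM.op_wc hpr hG, Pool.Agent.Q17.AM.LX (r := r) B, h1.1,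
    Pool.Agent.Q17.AM.Dw r D, h1.2.2 D hD, Pool.Agent.Q17.DM.dw_ne_bot hne,
    hX.1 _ _ ⟨(Pool.Agent.Q17.AM.eDw D).symm⟩
      (Pool.Agent.Q17.AM.Cl.fun (X := X) ⟨hX.1, hX.pow⟩ hXD)⟩,
    Pool.Agent.Q275.DM.card_Wc G r, ?_⟩
  have h2 := Pool.Agent.Q17.DM.dm_id p r hpr G O hO B hB hP
  rw [← poly_eq, ← poly_eq] at h2
  exact h2

/-- **Theorem.** Let `p` be a prime and let `S(B, d)` be Dade's alternating sum for the `p`-block `B`
and the defect `d`, over the chains of nontrivial `p`-subgroups up to conjugacy.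
(1) Let `r ≠ p` be a prime, and let `B` be a block of the finite group `G` with a nontrivial defect
group `D`. The characters of the wreath product `G ≀ C_r` over products of members of `B` form a block
`B'` with the defect group `D ^ r`, the sums for large `d` are zero, and the polynomials
`P_B(t) = ∑ S(B, d) t^d` satisfy `r P_{B'}(t) = P_B(t)^r + (r² - 1) P_B(t^r)`.
Let `X` be a class of groups closed under isomorphism and direct products (for example all groups, or
all abelian groups), and let `Y` be a class of finite groups closed under direct products and wreath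
products with cyclic groups of prime order `r ≠ p` (for example all finite groups, or the groups with
nonabelian composition factors in a given set), and let `M ≥ 1`.
(2) Let `m` be a natural number which is not a power of `p`. If `S(B, d) ≡ 0` modulo `m` for all
`G ∈ Y` with `O_p(G) = 1`, all blocks `B` with a nontrivial defect group in `X` and all `d` divisible
by `M`, then `S(B, d) = 0` for all these blocks and all `d`.
(3) The same conclusion holds if for every `n` there is a constant `C` with `|S(B, d)| ^ n ≤ C |G|`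
for all these `G`, `B` and all `d` divisible by `M`. -/
theorem result (p : ℕ) [Fact p.Prime] (O : ValuationSubring ℂ) (hO : (p : ℂ) ∈ O.nonunits) :
    (∀ (r : ℕ) [Fact r.Prime], r ≠ p → ∀ (G : Type) [Group G] [Fintype G] (B : Set (G → ℂ)),
      IsBlock O B → ∀ D : Subgroup G, IsDefectGroup p O B D → D ≠ ⊥ →
      IsBlock O (wreathBlock r B) ∧
      (∃ D' : Subgroup (WreathCyclic G r), IsDefectGroup p O (wreathBlock r B) D' ∧
        ∀ x, x ∈ D' ↔ x.right = 1 ∧ ∀ ω, x.left ω ∈ D) ∧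
      (∀ d, (Nat.card G).factorization p < d → dadeSum p O d B = 0) ∧
      (r : Polynomial ℤ) * dadePoly p O (wreathBlock r B) =
        dadePoly p O B ^ r + ((r ^ 2 - 1 : ℕ) : Polynomial ℤ) *
          Polynomial.expand ℤ r (dadePoly p O B)) ∧
    ∀ (X Y : ∀ (P : Type) [Group P], Prop), Closed X →
      (∀ (G H : Type) [Group G] [Group H] [Finite G] [Finite H], Y G → Y H → Y (G × H)) →
      (∀ (r : ℕ) [Fact r.Prime], r ≠ p → ∀ (G : Type) [Group G] [Finite G], Y G →
        Y (WreathCyclic G r)) →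
      ∀ M : ℕ, 1 ≤ M →
      (∀ m : ℕ, (∀ k, m ≠ p ^ k) →
        (∀ (G : Type) [Group G] [Finite G], Y G → NoNormal p G → ∀ B : Set (G → ℂ),
          IsBlock O B → ∀ D : Subgroup G, IsDefectGroup p O B D → D ≠ ⊥ → X D →
          ∀ d, M ∣ d → (m : ℤ) ∣ dadeSum p O d B) →
        ∀ (G : Type) [Group G] [Finite G], Y G → NoNormal p G → ∀ B : Set (G → ℂ),
          IsBlock O B → ∀ D : Subgroup G, IsDefectGroup p O B D → D ≠ ⊥ → X D →
          ∀ d, dadeSum p O d B = 0) ∧
      ((∀ n : ℕ, ∃ C : ℕ, ∀ (G : Type) [Group G] [Finite G], Y G → NoNormal p G →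
          ∀ B : Set (G → ℂ), IsBlock O B → ∀ D : Subgroup G, IsDefectGroup p O B D → D ≠ ⊥ →
          X D → ∀ d, M ∣ d → (dadeSum p O d B).natAbs ^ n ≤ C * Nat.card G) →
        ∀ (G : Type) [Group G] [Finite G], Y G → NoNormal p G → ∀ B : Set (G → ℂ),
          IsBlock O B → ∀ D : Subgroup G, IsDefectGroup p O B D → D ≠ ⊥ → X D →
          ∀ d, dadeSum p O d B = 0) := by
  refine ⟨?_, ?_⟩
  · intro r _ hr G _ _ B hB D hD hne
    have hP := Pool.Agent.Q17.AM.p_pos G p O hO B hB D hD hne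
    have h1 := Pool.Agent.Q17.AM.p_blk G p r hr.symm O hO B hB hP
    rw [wreathBlock_eq]
    refine ⟨h1.1, ⟨Pool.Agent.Q17.AM.Dw r D, h1.2.2 D hD, fun x => Iff.rfl⟩, fun d hd => ?_, ?_⟩
    · rw [sum_eq]
      exact Pool.Agent.Q275.DM.DO_zero hd
    · rw [poly_eq, poly_eq]
      exact Pool.Agent.Q17.DM.dm_id p r hr.symm G O hO B hB hP
  · intro X Y hX hY hY' M hM
    refine ⟨fun m hm h => ?_, fun h => ?_⟩
    · obtain ⟨r, hr, hrm, hpr⟩ := Pool.Agent.Q17.AM.exists_prime hm
      have hrF : Fact r.Prime := ⟨hr⟩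
      choose W hW using Data.wreath (X := X) (Y := Y) hpr hO hX
        (fun G _ _ => hY' r hpr.symm G)
      intro G _ _ hYG hG B hB D hD hne hXD d
      have hF : Fintype G := Fintype.ofFinite G
      have h1 := Pool.Agent.Q17.DM.cong_top Data.poly W hr (Data.mul hO hX hY)
        (fun x => (hW x).2) M hM (fun x d hd => by
          obtain ⟨G, gG, fG, hYG, hG, B, hB, D, hD, hne, hXD⟩ := x
          change (r : ℤ) ∣ (dadePoly p O B).coeff d
          rw [coeff_eq]
          exact (Int.natCast_dvd_natCast.mpr hrm).trans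
            (h G hYG hG B hB D hD hne hXD d hd))
        ⟨G, inferInstance, hF, hYG, hG, B, hB, D, hD, hne, hXD⟩
      rw [← coeff_eq]
      change (dadePoly p O B) = 0 at h1
      rw [h1, Polynomial.coeff_zero]
    · obtain ⟨r, hr3, hr, hpr⟩ : ∃ r, 3 ≤ r ∧ r.Prime ∧ p ≠ r := by
        by_cases hp : p = 3
        · exact ⟨5, by norm_num, by norm_num, by omega⟩
        · exact ⟨3, le_rfl, by norm_num, hp⟩
      have hrF : Fact r.Prime := ⟨hr⟩
      have hodd : Odd r := hr.odd_of_ne_two (by omega)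
      choose W hW using Data.wreath (X := X) (Y := Y) hpr hO hX
        (fun G _ _ => hY' r hpr.symm G)
      intro G _ _ hYG hG B hB D hD hne hXD d
      have hF : Fintype G := Fintype.ofFinite G
      have h1 := Pool.Agent.Q17.DM.growth_top Data.poly Data.card W hr3 hodd (fun x => by
          obtain ⟨G, gG, fG, hYG, hG, B, hB, D, hD, hne, hXD⟩ := x
          exact Nat.card_pos (α := G)) (fun x => (hW x).1) (Data.mul hO hX hY)
        (fun x => (hW x).2) M hM (fun n => by
          obtain ⟨C, hC⟩ := h n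
          refine ⟨C, fun x d hd => ?_⟩
          obtain ⟨G, gG, fG, hYG, hG, B, hB, D, hD, hne, hXD⟩ := x
          change ((dadePoly p O B).coeff d).natAbs ^ n ≤ C * Nat.card G
          rw [coeff_eq]
          exact hC G hYG hG B hB D hD hne hXD d hd)
        ⟨G, inferInstance, hF, hYG, hG, B, hB, D, hD, hne, hXD⟩
      rw [← coeff_eq]
      change (dadePoly p O B) = 0 at h1
      rw [h1, Polynomial.coeff_zero]

end Pool.Agent.Results.MP_3f89b9_al.CongruencesAndGrowth
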