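import Pool.Agent.Q17.OS.Fin
import Pool.Agent.Q17.OS.Abs

/-!
# Dade's ordinary conjecture and one-sided inequalities

From `Pool.Agent.Q17.DC.Defs`: `Ch p ⊤ Z₀ σ` says that `σ` is the set of the members
`D₁ < ... < D_n` of a chain `Z₀ < D₁ < ... < D_n` of `p`-subgroups, `Ns ⊤ σ` is the stabiliser of
`σ`, and `altX p ⊤ Z₀ w` is the sum of the `(-1) ^ n * w σ` over representatives `σ` of the conjugacy
classes of these chains. `IsIrr`, `omega`, `IsBlock` and `IsDefectGroup` are from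
`Pool.Agent.H254R3.IN.Defs`.
-/

set_option autoImplicit false

open scoped Classical
open Pool.Agent.H254R3.IN Pool.Agent.Q17.DC

namespace Pool.Agent.Results.MP_3f89b9_al.OneSidedInequalities

/-- The block `B` of `G` is induced by the block of the character `θ` of the subgroup `L`:
`λ_B(K⁺) = λ_θ((K ∩ L)⁺)` for the class `K` of every `x`. -/
def Induces {G : Type} [Group G] (O : ValuationSubring ℂ) (B : Set (G → ℂ)) {L : Subgroup G}
    (θ : L → ℂ) : Prop :=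
  ∀ χ ∈ B, ∀ x : G, omega χ x - ∑ᶠ y : {y : L // IsConj x (y : G)}, θ y / θ 1 ∈ O.nonunits

/-- `θ` is an irreducible character of the subgroup `L` of `p`-defect `d` and its block induces
`B`. -/
structure Counted {G : Type} [Group G] (p : ℕ) (O : ValuationSubring ℂ) (d : ℕ)
    (B : Set (G → ℂ)) (L : Subgroup G) (θ : L → ℂ) : Prop where
  irr : IsIrr θ
  ind : Induces O B θ
  defect : ∃ n : ℕ, (n : ℂ) = θ 1 ∧ (Nat.card L).factorization p = d + n.factorization p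

/-- Dade's alternating sum `∑ (-1)^|σ| k^d(B_σ)` over representatives of the conjugacy classes of the
chains of `p`-subgroups which start with `Z₀`. -/
noncomputable def dadeSum {G : Type} [Group G] (p : ℕ) (O : ValuationSubring ℂ)
    (Z₀ : Subgroup G) (d : ℕ) (B : Set (G → ℂ)) : ℤ :=
  altX p ⊤ Z₀ fun σ => (Nat.card {θ : Ns ⊤ σ → ℂ // Counted p O d B (Ns ⊤ σ) θ} : ℤ)

/-- `Z₀ = O_p(G)` -/
def IsOp {G : Type} [Group G] (p : ℕ) (Z₀ : Subgroup G) : Prop :=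
  Z₀.Normal ∧ IsPGroup p Z₀ ∧ ∀ Q : Subgroup G, Q.Normal → IsPGroup p Q → Q ≤ Z₀

/-- the block `B₁ ⊗ B₂` of the direct product -/
def prodBlock {G₁ G₂ : Type} (B₁ : Set (G₁ → ℂ)) (B₂ : Set (G₂ → ℂ)) : Set (G₁ × G₂ → ℂ) :=
  {χ | ∃ χ₁ ∈ B₁, ∃ χ₂ ∈ B₂, χ = fun x => χ₁ x.1 * χ₂ x.2}

theorem sum_eq {G : Type} [Group G] (p : ℕ) (O : ValuationSubring ℂ) (Z₀ : Subgroup G) (d : ℕ)
    (B : Set (G → ℂ)) : dadeSum p O Z₀ d B =
      Pool.Agent.Q17.OS.DG p O Z₀ ⊥ (fun _ => 1) d B := by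
  unfold dadeSum Pool.Agent.Q17.OS.DG
  refine altX_congr fun σ _ => ?_
  congr 1
  refine Nat.card_congr (Equiv.subtypeEquivRight fun θ => ⟨fun h => ⟨h.irr, h.ind, ?_, h.defect⟩,
    fun h => ⟨h.irr, h.ind, h.defect⟩⟩)
  intro x y hx
  have h1 : x = 1 := Subtype.ext (Subgroup.mem_bot.mp hx)
  rw [h1, one_mul, one_mul]

/-- the data of the conjecture -/
structure Data (p : ℕ) (O : ValuationSubring ℂ) : Type 1 where
  G : Type
  grp : Group G
  fin : Fintype G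
  Z : Subgroup G
  hZ : IsOp p Z
  hc : Z ≤ Subgroup.center G
  B : Set (G → ℂ)
  hB : IsBlock O B
  D : Subgroup G
  hD : IsDefectGroup p O B D
  lt : Z < D

/-- the alternating sum for the data -/
noncomputable def Data.sum {p : ℕ} {O : ValuationSubring ℂ} (x : Data p O) (d : ℕ) : ℤ :=
  @dadeSum x.G x.grp p O x.Z d x.B

theorem op_prod {p : ℕ} {G₁ G₂ : Type} [Group G₁] [Group G₂] {Z₁ : Subgroup G₁}
    {Z₂ : Subgroup G₂} (h1 : IsOp p Z₁) (h2 : IsOp p Z₂) : IsOp p (Z₁.prod Z₂) := by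
  obtain ⟨n1, p1, m1⟩ := h1
  obtain ⟨n2, p2, m2⟩ := h2
  refine ⟨inferInstance, Pool.Agent.Q17.OS.pgroup_prod p1 p2, fun Q hQ hp x hx => ?_⟩
  exact ⟨m1 (Q.map (MonoidHom.fst G₁ G₂)) (hQ.map _ Prod.fst_surjective) (hp.map _)
      ⟨x, hx, rfl⟩,
    m2 (Q.map (MonoidHom.snd G₁ G₂)) (hQ.map _ Prod.snd_surjective) (hp.map _) ⟨x, hx, rfl⟩⟩

theorem prod_sum {p : ℕ} [Fact p.Prime] {O : ValuationSubring ℂ} (hO : (p : ℂ) ∈ O.nonunits)
    {G₁ G₂ : Type} [Group G₁] [Group G₂] [Fintype G₁] [Fintype G₂] (Z₁ : Subgroup G₁)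
    (Z₂ : Subgroup G₂) [Z₁.Normal] [Z₂.Normal] (h1 : IsPGroup p Z₁) (h2 : IsPGroup p Z₂)
    {B₁ : Set (G₁ → ℂ)} {B₂ : Set (G₂ → ℂ)} (hB₁ : IsBlock O B₁) (hB₂ : IsBlock O B₂) (d : ℕ) :
    dadeSum p O (Z₁.prod Z₂) d (prodBlock B₁ B₂) =
      ∑ q ∈ Finset.range (d + 1), dadeSum p O Z₁ q B₁ * dadeSum p O Z₂ (d - q) B₂ := by
  have h := Pool.Agent.Q17.OS.prod_formula hO Z₁ ⊥ Z₂ ⊥ h1 h2 bot_le bot_le (fun _ => 1)
    (fun _ => 1) rfl rfl hB₁ hB₂ d
  simp only [sum_eq]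
  rw [← h]
  unfold Pool.Agent.Q17.OS.DG
  refine altX_congr fun σ _ => ?_
  congr 1
  refine Nat.card_congr (Equiv.subtypeEquivRight fun θ => ⟨fun h => ⟨h.irr, h.ind, ?_, h.defect⟩,
    fun h => ⟨h.irr, h.ind, ?_, h.defect⟩⟩)
  · intro x y hx
    rw [one_mul]
    exact (h.lin x y (by
      have h3 : (x : G₁ × G₂) = 1 := Prod.ext (Subgroup.mem_bot.mp hx.1) (Subgroup.mem_bot.mp hx.2)
      rw [h3]
      exact Subgroup.one_mem _))
  · intro x y hx
    have h3 := h.lin x y (by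
      have h3 : (x : G₁ × G₂) = 1 := Subgroup.mem_bot.mp hx
      rw [h3]
      exact Subgroup.one_mem _)
    rwa [one_mul] at h3

/-- **Theorem.** Let `p` be a prime.
(1) For `p`-blocks `B₁` of `G₁` and `B₂` of `G₂` and normal `p`-subgroups `Z₁`, `Z₂`, Dade's alternating
sum for `B₁ ⊗ B₂` and the defect `d`, over the chains of `p`-subgroups of `G₁ × G₂` which start with
`Z₁ × Z₂`, is the sum of the products of the sums for `B₁`, `q` and for `B₂`, `d - q`.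
(2) If for a block `B` of `G` the sums for `B ⊗ B` and all even defects are not positive, then all
sums for `B` are zero.
(3) Let `M ≥ 1`. If for all finite groups `G` with `Z₀ = O_p(G) ≤ Z(G)`, all `p`-blocks `B` with a defect
group which properly contains `Z₀` and all `d` divisible by `M` Dade's alternating sum is not positive,
then Dade's conjecture holds: all these sums are zero, for all `d`. -/
theorem result (p : ℕ) [Fact p.Prime] (O : ValuationSubring ℂ) (hO : (p : ℂ) ∈ O.nonunits) :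
    (∀ (G₁ G₂ : Type) [Group G₁] [Group G₂] [Fintype G₁] [Fintype G₂] (Z₁ : Subgroup G₁)
      (Z₂ : Subgroup G₂) [Z₁.Normal] [Z₂.Normal], IsPGroup p Z₁ → IsPGroup p Z₂ →
      ∀ (B₁ : Set (G₁ → ℂ)) (B₂ : Set (G₂ → ℂ)), IsBlock O B₁ → IsBlock O B₂ →
      IsBlock O (prodBlock B₁ B₂) ∧ ∀ d, dadeSum p O (Z₁.prod Z₂) d (prodBlock B₁ B₂) =
        ∑ q ∈ Finset.range (d + 1), dadeSum p O Z₁ q B₁ * dadeSum p O Z₂ (d - q) B₂) ∧
    (∀ (G : Type) [Group G] [Fintype G] (Z₀ : Subgroup G) [Z₀.Normal], IsPGroup p Z₀ →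
      ∀ B : Set (G → ℂ), IsBlock O B →
      (∀ d, dadeSum p O (Z₀.prod Z₀) (2 * d) (prodBlock B B) ≤ 0) →
      ∀ d, dadeSum p O Z₀ d B = 0) ∧
    ∀ M : ℕ, 1 ≤ M →
      (∀ (G : Type) [Group G] [Fintype G] (Z₀ : Subgroup G), IsOp p Z₀ →
        Z₀ ≤ Subgroup.center G → ∀ B : Set (G → ℂ), IsBlock O B → ∀ D : Subgroup G,
        IsDefectGroup p O B D → Z₀ < D → ∀ d, M ∣ d → dadeSum p O Z₀ d B ≤ 0) →
      ∀ (G : Type) [Group G] [Fintype G] (Z₀ : Subgroup G), IsOp p Z₀ →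
        Z₀ ≤ Subgroup.center G → ∀ B : Set (G → ℂ), IsBlock O B → ∀ D : Subgroup G,
        IsDefectGroup p O B D → Z₀ < D → ∀ d, dadeSum p O Z₀ d B = 0 := by
  refine ⟨?_, ?_, ?_⟩
  · intro G₁ G₂ _ _ _ _ Z₁ Z₂ _ _ h1 h2 B₁ B₂ hB₁ hB₂
    exact ⟨Pool.Agent.Q111.OS.block_TB hB₁ hB₂, fun d => prod_sum hO Z₁ Z₂ h1 h2 hB₁ hB₂ d⟩
  · intro G _ _ Z₀ _ h1 B hB h d
    refine Pool.Agent.Q17.OS.top_coeff (f := fun d => dadeSum p O Z₀ d B)
      (g := fun d => dadeSum p O (Z₀.prod Z₀) d (prodBlock B B))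
      (N := (Nat.card G).factorization p) (fun d hd => ?_)
      (fun d => prod_sum hO Z₀ Z₀ h1 h1 hB hB d) h d
    rw [sum_eq]
    exact Pool.Agent.Q17.OS.DG_large hd
  · intro M hM h G _ _ Z₀ hZ hc B hB D hD hlt d
    refine Pool.Agent.Q17.OS.one_sided (Data.sum (p := p) (O := O)) (fun x => ?_) (fun x y => ?_)
      M hM (fun x d hd => ?_) ⟨G, inferInstance, inferInstance, Z₀, hZ, hc, B, hB, D, hD, hlt⟩ d
    · obtain ⟨G, gG, fG, Z, hZ, hc, B, hB, D, hD, hlt⟩ := x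
      refine ⟨(Nat.card G).factorization p, fun d hd => ?_⟩
      change dadeSum p O Z d B = 0
      rw [sum_eq]
      exact Pool.Agent.Q17.OS.DG_large hd
    · obtain ⟨G, gG, fG, Z, hZ, hc, B, hB, D, hD, hlt⟩ := x
      obtain ⟨G', gG', fG', Z', hZ', hc', B', hB', D', hD', hlt'⟩ := y
      have hn : Z.Normal := hZ.1
      have hn' : Z'.Normal := hZ'.1
      refine ⟨⟨G × G', inferInstance, inferInstance, Z.prod Z', op_prod hZ hZ', fun z hz =>
        Subgroup.mem_center_iff.mpr fun g => Prod.ext (Subgroup.mem_center_iff.mp (hc hz.1) g.1)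
          (Subgroup.mem_center_iff.mp (hc' hz.2) g.2), prodBlock B B',
        Pool.Agent.Q111.OS.block_TB hB hB', D.prod D', Pool.Agent.Q111.OS.defect_TB hB hB' hD hD',
        Pool.Agent.Q17.OS.prod_lt hlt hlt'⟩, fun d => ?_⟩
      exact prod_sum hO Z Z' hZ.2.1 hZ'.2.1 hB hB' d
    · obtain ⟨G, gG, fG, Z, hZ, hc, B, hB, D, hD, hlt⟩ := x
      exact h G Z hZ hc B hB D hD hlt d hd

end Pool.Agent.Results.MP_3f89b9_al.OneSidedInequalities
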