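import Pool.Agent.Q18.OR.VSum
import Pool.Agent.Q177.OR.Clp

/-!
# Normal subgroups of `p`-power index and the alternating sums of the numbers of characters
-/

open scoped Classical

open Pool.Agent.Y63.KR (conjSub conjSub_one conjSub_mul)

noncomputable section

namespace Pool.Agent.Results.MP_3f89b9_al.OrbitSums

/-- `χ` is an irreducible complex character of `H`. -/
def IsIrr {H : Type} [Group H] (χ : H → ℂ) : Prop :=
  ∃ (V : Type) (_ : AddCommGroup V) (_ : Module ℂ V) (_ : FiniteDimensional ℂ V)
    (ρ : Representation ℂ H V), ρ.IsIrreducible ∧ χ = ρ.character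

section

variable {F : Type} [Field F]

/-- `f` is a class function: an element of the centre of the group algebra `F[G]`. -/
def IsClassFun {G : Type} [Group G] (f : G → F) : Prop := ∀ g x : G, f (g * x * g⁻¹) = f x

/-- The product of the group algebra `F[G]`. -/
def conv {G : Type} [Group G] (f g : G → F) : G → F := fun x => ∑ᶠ y : G, f y * g (y⁻¹ * x)

/-- `B` is (the central character of) a `p`-block of `G`: an `F`-algebra homomorphism from the centre
of `F[G]` to `F`, for `F` algebraically closed of characteristic `p`. -/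
structure IsBlock {G : Type} [Group G] (B : (G → F) → F) : Prop where
  add : ∀ f g : G → F, IsClassFun f → IsClassFun g → B (f + g) = B f + B g
  smul : ∀ (a : F) (f : G → F), IsClassFun f → B (a • f) = a * B f
  one : B (Pi.single 1 1) = 1
  mul : ∀ f g : G → F, IsClassFun f → IsClassFun g → B (conv f g) = B f * B g

/-- The reduction of an algebraic integer, extended by zero to all complex numbers. -/
def redC (red : integralClosure ℤ ℂ →+* F) (a : ℂ) : F :=
  if h : IsIntegral ℤ a then red ⟨a, h⟩ else 0

/-- The value of the reduction `λ_χ` of the central character of `χ` at the class function `f`: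
`∑_C f(C) · red (|C| χ(C) / χ(1))`, the sum over the conjugacy classes `C` of `H`. -/
def centralValue (red : integralClosure ℤ ℂ →+* F) {H : Type} [Group H] (χ : H → ℂ)
    (f : H → F) : F :=
  ∑ᶠ C : ConjClasses H, f C.out * redC red ((Nat.card C.carrier : ℂ) * χ C.out / χ 1)

end

section

variable {G : Type} [Group G]

/-- A chain `D_0 = Z < D_1 < ⋯ < D_n` of `p`-subgroups, recorded by the set `{D_1, …, D_n}`. -/
structure IsChainOver (p : ℕ) (Z : Subgroup G) (d : Set (Subgroup G)) : Prop where
  chain : IsChain (· ≤ ·) d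
  isPGroup : ∀ P ∈ d, IsPGroup p P
  lt : ∀ P ∈ d, Z < P

/-- The stabiliser `G_d = ⋂ N_G(D_i)` (here `Z = D_0` is normal). -/
def stab (d : Set (Subgroup G)) : Subgroup G := ⨅ P ∈ d, Subgroup.normalizer (P : Set G)

/-- Conjugacy of chains. -/
def conjSetoid (p : ℕ) (Z : Subgroup G) : Setoid {d : Set (Subgroup G) // IsChainOver p Z d} where
  r d e := ∃ g : G, e.1 = (fun P => P.map (MulAut.conj g).toMonoidHom) '' d.1
  iseqv :=
    { refl := fun d => ⟨1, by
        have : (fun P : Subgroup G => P.map (MulAut.conj (1 : G)).toMonoidHom) = id :=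
          funext conjSub_one
        rw [this, Set.image_id]⟩
      symm := by
        rintro d e ⟨g, hg⟩
        refine ⟨g⁻¹, ?_⟩
        rw [hg, ← Set.image_comp]
        have : (fun P : Subgroup G => P.map (MulAut.conj g⁻¹).toMonoidHom) ∘
            (fun P : Subgroup G => P.map (MulAut.conj g).toMonoidHom) = id := by
          funext P
          change conjSub g⁻¹ (conjSub g P) = P
          rw [← conjSub_mul, inv_mul_cancel, conjSub_one]
        rw [this, Set.image_id]
      trans := by
        rintro d e f ⟨g, hg⟩ ⟨h, hh⟩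
        refine ⟨h * g, ?_⟩
        rw [hh, hg, ← Set.image_comp]
        congr 1
        exact (funext fun P => conjSub_mul h g P).symm }

/-- The alternating sum `∑_d (-1)^|d| n(d)` over representatives `d` of the conjugacy classes of the
chains `Z = D_0 < D_1 < ⋯ < D_n` of `p`-subgroups of `G`. -/
def altSum (p : ℕ) (Z : Subgroup G) (n : Set (Subgroup G) → ℕ) : ℤ :=
  ∑ᶠ c : Quotient (conjSetoid p Z), (-1) ^ (Quotient.out c).1.ncard *
    (n (Quotient.out c).1 : ℤ)

variable {F : Type} [Field F]

/-- The number `k(B_d)` of the `χ ∈ Irr(G_d)` with `bl(χ)^G = B`, that is, `λ_χ(f|_{G_d}) = B(f)`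
for all class functions `f` of `G`. -/
def numIrr (red : integralClosure ℤ ℂ →+* F) (B : (G → F) → F) (d : Set (Subgroup G)) : ℕ :=
  Nat.card {χ : stab d → ℂ // IsIrr χ ∧
    ∀ f : G → F, IsClassFun f → centralValue red χ (fun x => f x) = B f}

/-- The number of the `χ ∈ Irr(G_d)` with `bl(χ)^G = B` which vanish on `G_d ∖ K`. -/
def numVanish (red : integralClosure ℤ ℂ →+* F) (B : (G → F) → F) (K : Subgroup G)
    (d : Set (Subgroup G)) : ℕ :=
  Nat.card {χ : stab d → ℂ // IsIrr χ ∧ (∀ x : stab d, (x : G) ∉ K → χ x = 0) ∧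
    ∀ f : G → F, IsClassFun f → centralValue red χ (fun x => f x) = B f}

/-- The function `θ` on `G_d ∩ K` lies under `B`: `λ_θ(f|_{G_d ∩ K}) = B(f)` for all class functions
`f` of `G` which vanish outside `K`. -/
def LiesUnder (red : integralClosure ℤ ℂ →+* F) (B : (G → F) → F) (K : Subgroup G)
    {d : Set (Subgroup G)} (θ : ↥(stab d ⊓ K) → ℂ) : Prop :=
  ∀ f : G → F, IsClassFun f → (∀ x, x ∉ K → f x = 0) → centralValue red θ (fun x => f x) = B f

/-- The `G_d`-orbit of `θ`. -/
def orbit (K : Subgroup G) {d : Set (Subgroup G)} (θ : ↥(stab d ⊓ K) → ℂ) :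
    Set (↥(stab d ⊓ K) → ℂ) :=
  {θ' | ∃ g ∈ stab d, ∀ x y : ↥(stab d ⊓ K), (y : G) = g * x * g⁻¹ → θ' x = θ y}

/-- The number of the `G_d`-orbits of irreducible characters of `G_d ∩ K` under `B` which are stable
under `s`. -/
def numOrbits (red : integralClosure ℤ ℂ →+* F) (B : (G → F) → F) (K : Subgroup G) (s : ℂ ≃+* ℂ)
    (d : Set (Subgroup G)) : ℕ :=
  Nat.card {O : Set (↥(stab d ⊓ K) → ℂ) // ∃ θ : ↥(stab d ⊓ K) → ℂ,
    IsIrr θ ∧ LiesUnder red B K θ ∧ O = orbit K θ ∧ (fun x => s (θ x)) ∈ O}

end

/-- **Normal subgroups of `p`-power index.** Let `Z` be a normal `p`-subgroup of the finite group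
`G`, `K` a normal subgroup with `Z ≤ K` and `G/K` a `p`-group, and `B` a `p`-block of `G`. The
alternating sum of the `k(B_d)` over the chains which begin with `Z` is equal to the alternating sum
of the numbers of the `G_d`-orbits of irreducible characters of `G_d ∩ K` under `B`, also if only
the `s`-stable orbits are counted, for every automorphism `s` of `ℂ` which fixes the `|G|`-th roots
of unity of order dividing `k · exp(Z)` for some `k` prime to `p`. If `|G : K| = p` it is equal to
the alternating sum of the numbers of the characters in `B_d` which vanish outside `K`. -/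
theorem result (p : ℕ) [Fact p.Prime] (F : Type) [Field F] [IsAlgClosed F] [CharP F p]
    (red : integralClosure ℤ ℂ →+* F) (G : Type) [Group G] [Finite G] (Z K : Subgroup G)
    [K.Normal] (hZn : Z.Normal) (hZ : IsPGroup p Z) (hZK : Z ≤ K) (hK : IsPGroup p (G ⧸ K))
    (B : (G → F) → F) (hB : IsBlock B) :
    (∀ s : ℂ ≃+* ℂ, (∀ ζ : ℂ, ζ ^ Nat.card G = 1 →
        (∃ k : ℕ, ¬ p ∣ k ∧ ζ ^ (k * Monoid.exponent Z) = 1) → s ζ = ζ) →
      altSum p Z (numIrr red B) = altSum p Z (numOrbits red B K s)) ∧
    (K.index = p → altSum p Z (numIrr red B) = altSum p Z (numVanish red B K)) := by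
  have hB' : Pool.Agent.Y63.NV.IsBlock B := ⟨hB.add, hB.smul, hB.one, hB.mul⟩
  have hch : ∀ d : Set (Subgroup G), IsChainOver p Z d ↔ Pool.Agent.Q18.K.CH p ⊤ Z d := fun d =>
    ⟨fun h => ⟨h.chain, h.isPGroup, fun _ _ => le_top, h.lt⟩, fun h => ⟨h.chain, h.isp, h.lt⟩⟩
  have key : ∀ (n : Set (Subgroup G) → ℕ) (f : Subgroup G → ℕ),
      (∀ d, n d = f (Pool.Agent.Y63.KR.chainStabilizer d)) →
      (∀ (g : G) (H : Subgroup G), f (conjSub g H) = f H) →
      altSum p Z n = ∑ᶠ c : Quotient (Pool.Agent.Q18.K.chS p Z),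
        (-1) ^ (Quotient.out c).1.ncard *
          (f (Pool.Agent.Y63.KR.chainStabilizer (Quotient.out c).1) : ℤ) := by
    intro n f h hf
    have e2 := Pool.Agent.Q18.K.cls_eq (IsChainOver p Z) (Pool.Agent.Q18.K.CH p ⊤ Z) hch
      (fun _ h => h.chain) (fun g _ h => h.conj hZn g) (conjSetoid p Z) (fun _ _ => Iff.rfl)
      (Pool.Agent.Q18.K.chS p Z) (fun _ _ => Iff.rfl)
      (fun H => (f H : ℤ)) (fun g H => by rw [hf])
    unfold altSum
    refine Eq.trans (finsum_congr fun c => ?_) e2
    rw [h]
  have k1 := key (numIrr red B) (Pool.Agent.Q18.K.numQ red B (fun _ => True)) (fun d => by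
      unfold numIrr Pool.Agent.Q18.K.numQ
      exact Nat.card_congr (Equiv.subtypeEquivRight fun χ => and_congr_right fun _ =>
        ⟨fun h => ⟨trivial, h⟩, fun h => h.2⟩))
    (fun g H => Pool.Agent.Q18.K.numQ_conj red B _ g H)
  constructor
  · intro s hs
    have k2 := key (numOrbits red B K s)
      (fun H => Pool.Agent.Q18.OR.NO K H (Pool.Agent.Q18.OR.PB red B K) (fun θ x => s (θ x)))
      (fun d => by
        have horb : ∀ θ : ↥(stab d ⊓ K) → ℂ,
            orbit K θ = Pool.Agent.Q18.OR.orbF K (Pool.Agent.Y63.KR.chainStabilizer d) θ := by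
          intro θ
          ext θ'
          constructor
          · rintro ⟨g, hg, h⟩
            exact ⟨⟨g, hg⟩, funext fun x => h x _ rfl⟩
          · rintro ⟨g, rfl⟩
            refine ⟨g, g.2, fun x y hxy => ?_⟩
            change θ _ = θ y
            congr 1
            exact Subtype.ext hxy.symm
        unfold numOrbits Pool.Agent.Q18.OR.NO
        refine Nat.card_congr (Equiv.subtypeEquivRight fun O => exists_congr fun θ =>
          and_congr_right fun _ => and_congr ?_ (and_congr_left fun _ => ?_))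
        · constructor
          · exact fun h f hf => h f (fun g x => hf.conj g x) hf.supp
          · exact fun h f hf hf' => h f ⟨fun g x => hf g x, hf'⟩
        · rw [horb]
          exact Iff.rfl)
      (fun g H => Pool.Agent.Q18.OR.NO_conj red B s g H)
    rw [k1, k2]
    exact Pool.Agent.Q18.OR.cls_sumO red hZ hZn hZK hK hs hB'
  · intro hidx
    have k2 := key (numVanish red B K) (Pool.Agent.Q18.OR.numV red B K) (fun d => rfl)
      (fun g H => Pool.Agent.Q18.OR.numV_conj red B g H)
    rw [k1, k2]
    exact Pool.Agent.Q18.OR.van_sum Pool.Agent.Q177.OR.clp red hZ hZn hZK hidx hB'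

end Pool.Agent.Results.MP_3f89b9_al.OrbitSums
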