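import Pool.Agent.Q17.DC.Pkg

/-!
# Dade's ordinary conjecture with residues and field automorphisms, relative to a normal subgroup

`N` is a normal subgroup of an arbitrary finite group `G` and `y` is a `p`-element of order `p`
modulo `N` which is central modulo `N`. The hypothesis is on the centralisers in `N` of the
`p`-elements of the coset `yN` only. A block `B` of `G` with a defect group which meets `N⟨y⟩` outside
`N` is induced by exactly one block `b` of `H` with such a defect group. The alternating sums of Dade's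
ordinary conjecture for the characters in the blocks of the stabilisers which see the coset agree for
`B` and for `b`, for every defect `d`, every Isaacs-Navarro-Uno residue `κ` and every stabiliser in the
group of the field automorphisms. If the centre of a defect group of `B` meets `N⟨y⟩` outside `N` then
`b` is the only block of `H` which induces `B` and these sums of all characters agree.

From `Pool.Agent.Q17.DC.Defs`: `Ch p ⊤ Z₀ σ` says that `σ` is the set of the members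
`D₁ < ... < D_n` of a chain `Z₀ < D₁ < ... < D_n` of `p`-subgroups, `Ns ⊤ σ` is the stabiliser of
`σ`, `altX p ⊤ Z₀ w` is the sum of the `(-1) ^ n * w σ` over representatives `σ` of the conjugacy
classes of these chains, and `Sec p N K x` says that the `p`-part of `x` is in `K` and not in `N`.
-/

open scoped Classical
open Pool.Agent.H254R3.IN Pool.Agent.Q17.DC

namespace Pool.Agent.Results.MP_3f89b9_al.RelativeResidues

/-- The hypotheses on `(G, N, y, P, H)`: `y ∈ P` has order `p` modulo `N` and is central modulo `N`;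
`H` contains the Sylow `p`-subgroup `P` and `C_N(x)` for all `x ∈ P ∩ yN`, and `G = NH`. -/
def Hyp {G : Type} [Group G] (p : ℕ) (N : Subgroup G) (y : G) (P : Sylow p G) (H : Subgroup G) :
    Prop :=
  (y ∈ P ∧ y ∉ N ∧ y ^ p ∈ N ∧ ∀ g : G, g * y * g⁻¹ * y⁻¹ ∈ N) ∧
    (P : Subgroup G) ≤ H ∧ (∀ g : G, ∃ n ∈ N, ∃ h ∈ H, g = n * h) ∧
    ∀ x ∈ P, y⁻¹ * x ∈ N → ∀ n ∈ N, Commute n x → n ∈ H

/-- The block `B` of `G` is induced by the block of the character `θ` of the subgroup `L`: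
`λ_B(K⁺) = λ_θ((K ∩ L)⁺)` for the class `K` of every `x`. -/
def Induces {G : Type} [Group G] (O : ValuationSubring ℂ) (B : Set (G → ℂ)) {L : Subgroup G}
    (θ : L → ℂ) : Prop :=
  ∀ χ ∈ B, ∀ x : G, omega χ x - ∑ᶠ y : {y : L // IsConj x (y : G)}, θ y / θ 1 ∈ O.nonunits

/-- `θ` is an irreducible character of the subgroup `L`, its block induces `B`, it has `p`-defect
`d`, the residue `(|L| / θ(1))_{p'}` is `κ` or `-κ` modulo `p` (written as
`|L|_{p'} ≡ ± κ θ(1)_{p'}`), and `S` is its stabiliser in the group of the automorphisms of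
`ℂ`. -/
structure Counted {G : Type} [Group G] (p : ℕ) (O : ValuationSubring ℂ) (d : ℕ) (κ : ℤ)
    (S : Set (ℂ ≃+* ℂ)) (B : Set (G → ℂ)) (L : Subgroup G) (θ : L → ℂ) : Prop where
  irr : IsIrr θ
  ind : Induces O B θ
  degree : ∃ n : ℕ, (n : ℂ) = θ 1 ∧ (Nat.card L).factorization p = d + n.factorization p ∧
    ((pPrimePart p (Nat.card L) : ℤ) ≡ κ * pPrimePart p n [ZMOD p] ∨
      (pPrimePart p (Nat.card L) : ℤ) ≡ -κ * pPrimePart p n [ZMOD p])
  galois : {τ : ℂ ≃+* ℂ | ∀ x, τ (θ x) = θ x} = S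

/-- The block of the character `θ` of `L` sees `K ∖ N`: its central character does not vanish at the
class of some element of `L` whose `p`-part is in `K` and not in `N`. -/
def Sees {G : Type} [Group G] (p : ℕ) (O : ValuationSubring ℂ) (N K L : Subgroup G)
    (θ : L → ℂ) : Prop :=
  ∃ x : L, Sec p N K (x : G) ∧ omega θ x ∉ O.nonunits

/-- The alternating sum `∑ (-1)^|σ| k^{d, κ, S}(B_σ)` over representatives of the conjugacy classes
of the chains of `p`-subgroups which start with `Z₀`. -/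
noncomputable def dadeSum {G : Type} [Group G] (p : ℕ) (O : ValuationSubring ℂ)
    (Z₀ : Subgroup G) (d : ℕ) (κ : ℤ) (S : Set (ℂ ≃+* ℂ)) (B : Set (G → ℂ)) : ℤ :=
  altX p ⊤ Z₀ fun σ => (Nat.card {θ : Ns ⊤ σ → ℂ // Counted p O d κ S B (Ns ⊤ σ) θ} : ℤ)

/-- The same sum for the characters in blocks which see `K ∖ N`. -/
noncomputable def dadeSumSeeing {G : Type} [Group G] (p : ℕ) (O : ValuationSubring ℂ)
    (N K Z₀ : Subgroup G) (d : ℕ) (κ : ℤ) (S : Set (ℂ ≃+* ℂ)) (B : Set (G → ℂ)) : ℤ :=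
  altX p ⊤ Z₀ fun σ => (Nat.card {θ : Ns ⊤ σ → ℂ //
    Counted p O d κ S B (Ns ⊤ σ) θ ∧ Sees p O N K (Ns ⊤ σ) θ} : ℤ)

/-- Some defect group of the block `B` contains an element of `K` outside `N`. -/
def Meets {G : Type} [Group G] (p : ℕ) (O : ValuationSubring ℂ) (N K : Subgroup G)
    (B : Set (G → ℂ)) : Prop :=
  ∃ D : Subgroup G, IsDefectGroup p O B D ∧ ∃ z ∈ D, z ∈ K ∧ z ∉ N

/-- The centre of some defect group of the block `B` contains an element of `K` outside `N`. -/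
def MeetsCentrally {G : Type} [Group G] (p : ℕ) (O : ValuationSubring ℂ) (N K : Subgroup G)
    (B : Set (G → ℂ)) : Prop :=
  ∃ D : Subgroup G, IsDefectGroup p O B D ∧ ∃ z ∈ D, (∀ x ∈ D, Commute z x) ∧ z ∈ K ∧ z ∉ N

theorem coprime_part {p n : ℕ} (hp : p.Prime) (hn : n ≠ 0) :
    IsCoprime ((pPrimePart p n : ℕ) : ℤ) (p : ℤ) := by
  rw [Nat.isCoprime_iff_coprime]
  exact (Nat.coprime_ordCompl hp hn).symm

/-- the residue condition is compatible with the congruence -/
theorem residue_iff {p : ℕ} [hp : Fact p.Prime] {d k n l m : ℕ} {κ δ : ℤ} (hn : n ≠ 0)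
    (hm : m ≠ 0)
    (h1 : k.factorization p + m.factorization p = l.factorization p + n.factorization p)
    (hδ : δ = 1 ∨ δ = -1)
    (h3 : ((pPrimePart p k * pPrimePart p m : ℕ) : ℤ) ≡
      δ * ((pPrimePart p l * pPrimePart p n : ℕ) : ℤ) [ZMOD p]) :
    (k.factorization p = d + n.factorization p ∧
      ((pPrimePart p k : ℤ) ≡ κ * pPrimePart p n [ZMOD p] ∨
        (pPrimePart p k : ℤ) ≡ -κ * pPrimePart p n [ZMOD p])) ↔
    (l.factorization p = d + m.factorization p ∧
      ((pPrimePart p l : ℤ) ≡ κ * pPrimePart p m [ZMOD p] ∨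
        (pPrimePart p l : ℤ) ≡ -κ * pPrimePart p m [ZMOD p])) := by
  have key : ∀ {a b c e : ℕ} (η : ℤ), (η = 1 ∨ η = -1) → b ≠ 0 →
      ((pPrimePart p a * pPrimePart p e : ℕ) : ℤ) ≡
        η * ((pPrimePart p c * pPrimePart p b : ℕ) : ℤ) [ZMOD p] →
      ((pPrimePart p a : ℤ) ≡ κ * pPrimePart p b [ZMOD p] ∨
        (pPrimePart p a : ℤ) ≡ -κ * pPrimePart p b [ZMOD p]) →
      ((pPrimePart p c : ℤ) ≡ κ * pPrimePart p e [ZMOD p] ∨
        (pPrimePart p c : ℤ) ≡ -κ * pPrimePart p e [ZMOD p]) := by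
    intro a b c e η hη hb h4 h5
    have hcop := coprime_part hp.out hb
    push_cast at h4
    have red : ∀ κ' : ℤ, (pPrimePart p a : ℤ) ≡ κ' * pPrimePart p b [ZMOD p] →
        (pPrimePart p c : ℤ) ≡ η * κ' * pPrimePart p e [ZMOD p] := by
      intro κ' h6
      have h7 := (h6.mul_right (pPrimePart p e : ℤ)).symm.trans h4
      rw [Int.modEq_iff_dvd] at h7
      rw [Int.modEq_iff_dvd]
      have hη2 : η * η = 1 := by rcases hη with h | h <;> rw [h] <;> norm_num
      have h8 : (p : ℤ) ∣ (η * κ' * pPrimePart p e - pPrimePart p c) * pPrimePart p b := by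
        have h9 := h7.mul_left (-η)
        have e1 : -η * (η * ((pPrimePart p c : ℤ) * pPrimePart p b) -
            κ' * pPrimePart p b * pPrimePart p e) =
            (η * κ' * pPrimePart p e - η * η * pPrimePart p c) * pPrimePart p b := by ring
        rw [e1, hη2, one_mul] at h9
        exact h9
      exact hcop.symm.dvd_of_dvd_mul_right h8
    rcases hη with h | h
    · rcases h5 with h5 | h5
      · left
        have := red κ h5
        rwa [h, one_mul] at this
      · right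
        have := red (-κ) h5
        rwa [h, one_mul] at this
    · rcases h5 with h5 | h5
      · right
        have := red κ h5
        rwa [h, neg_one_mul] at this
      · left
        have := red (-κ) h5
        rwa [h, neg_one_mul, neg_neg] at this
  have hd : k.factorization p = d + n.factorization p ↔
      l.factorization p = d + m.factorization p := by omega
  have h3' : ((pPrimePart p l * pPrimePart p n : ℕ) : ℤ) ≡
      δ * ((pPrimePart p k * pPrimePart p m : ℕ) : ℤ) [ZMOD p] := by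
    have h4 := (h3.mul_left δ).symm
    have hδ2 : δ * δ = 1 := by rcases hδ with h | h <;> rw [h] <;> norm_num
    rwa [← mul_assoc, hδ2, one_mul] at h4
  rw [hd]
  exact and_congr_right fun _ => ⟨fun h => key δ hδ hn h3 h, fun h => key δ hδ hm h3' h⟩

/-- the data -/
def dt {G : Type} [Group G] (p : ℕ) (O : ValuationSubring ℂ) (N K : Subgroup G) (d : ℕ) (κ : ℤ)
    (S : Set (ℂ ≃+* ℂ)) : Pt G :=
  ⟨p, O, N, K, ⊥, fun _ => 1, True, False,
    fun k n => k.factorization p = d + n.factorization p ∧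
      ((pPrimePart p k : ℤ) ≡ κ * pPrimePart p n [ZMOD p] ∨
        (pPrimePart p k : ℤ) ≡ -κ * pPrimePart p n [ZMOD p]), fun U => U = S⟩

theorem ct_see {G : Type} [Group G] {p : ℕ} {O : ValuationSubring ℂ} {N K : Subgroup G}
    {d : ℕ} {κ : ℤ} {S : Set (ℂ ≃+* ℂ)} {B : Set (G → ℂ)} {L : Subgroup G} {θ : L → ℂ} :
    Ct (dt p O N K d κ S) B L θ ↔ Counted p O d κ S B L θ ∧ Sees p O N K L θ := by
  constructor
  · rintro ⟨h1, h2, h3, -, -, h5, h6⟩
    exact ⟨⟨h1, h2, h5, h6⟩, h3 trivial⟩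
  · rintro ⟨⟨h1, h2, h5, h6⟩, h3⟩
    refine ⟨h1, h2, fun _ => h3, fun h => h.elim, fun c hc => ?_, h5, h6⟩
    have h7 : c = 1 := Subtype.ext (Subgroup.mem_bot.mp hc)
    rw [h7]
    exact (mul_one _).symm

theorem ct_res' {G : Type} [Group G] {p : ℕ} {O : ValuationSubring ℂ} {N K H : Subgroup G}
    {d : ℕ} {κ : ℤ} {S : Set (ℂ ≃+* ℂ)} {b : Set (H → ℂ)} {L : Subgroup H} :
    ct ((dt p O N K d κ S).res H) b L = ct (dt p O (N.subgroupOf H) (K.subgroupOf H) d κ S) b L := by
  unfold ct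
  congr 1
  refine Nat.card_congr (Equiv.subtypeEquivRight fun θ => ?_)
  constructor
  · rintro ⟨h1, h2, h3, h4, -, h5, h6⟩
    refine ⟨h1, h2, h3, h4, fun c hc => ?_, h5, h6⟩
    have h7 : c = 1 := Subtype.ext (Subgroup.mem_bot.mp hc)
    rw [h7]
    exact (mul_one _).symm
  · rintro ⟨h1, h2, h3, h4, -, h5, h6⟩
    refine ⟨h1, h2, h3, h4, fun c hc => ?_, h5, h6⟩
    have h7 : c = 1 := Subtype.ext (Subtype.ext (Subgroup.mem_bot.mp hc))
    rw [h7]
    exact (mul_one _).symm

theorem sum_see {G : Type} [Group G] (p : ℕ) (O : ValuationSubring ℂ) (N K Z₀ : Subgroup G)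
    (d : ℕ) (κ : ℤ) (S : Set (ℂ ≃+* ℂ)) (B : Set (G → ℂ)) :
    dadeSumSeeing p O N K Z₀ d κ S B =
      altX p ⊤ Z₀ fun σ => ct (dt p O N K d κ S) B (Ns ⊤ σ) := by
  unfold dadeSumSeeing ct
  refine altX_congr fun σ _ => ?_
  congr 1
  exact Nat.card_congr (Equiv.subtypeEquivRight fun θ => ct_see.symm)

theorem sum_good {G : Type} [Group G] [Fintype G] {p : ℕ} [hp : Fact p.Prime]
    {O : ValuationSubring ℂ} {N K : Subgroup G} (hN : N.Normal) (hK : K.Normal)
    (Z₀ : Subgroup G) (d : ℕ) (κ : ℤ) (S : Set (ℂ ≃+* ℂ)) {B : Set (G → ℂ)} (hB : IsBlock O B)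
    (hg : good (dt p O N K d κ S) B) :
    dadeSum p O Z₀ d κ S B = dadeSumSeeing p O N K Z₀ d κ S B := by
  unfold dadeSumSeeing dadeSum
  refine altX_congr fun σ _ => ?_
  congr 1
  refine Nat.card_congr (Equiv.subtypeEquivRight fun θ => ⟨fun h => ⟨h, ?_⟩, fun h => h.1⟩)
  exact @good_god G _ _ (dt p O N K d κ S) hN hp prt.gdt hK B hB hg _ θ h.irr h.ind

/-- **Theorem.** Let `G` be a finite group, `N` a normal subgroup, `P` a Sylow `p`-subgroup of `G`
and `y ∈ P ∖ N` with `y ^ p ∈ N` and `[G, y] ≤ N` (so `G / N` is arbitrary, with a central subgroup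
of order `p`). Let `H ≥ P` be a subgroup with `G = NH` and `C_N(x) ≤ H` for all `x ∈ P ∩ yN`. Let
`Z₀` be a normal `p`-subgroup of `G` (for instance `O_p(G)`) and `B` a `p`-block of `G`. Then
(1) `Z₀ ≤ H`;
(2) if no defect group of `B` meets `N⟨y⟩` outside `N` then no character of a stabiliser in a block
which induces `B` and sees `N⟨y⟩ ∖ N` exists, and the sums for these characters are zero;
(3) if a defect group of `B` meets `N⟨y⟩` outside `N` then there is exactly one block `b` of `H` with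
`b^G = B` and with a defect group which meets `N⟨y⟩` outside `N`, `B` and `b` have a common defect
group of this kind, and the alternating sums `∑ (-1)^|σ| k^{d, κ, S}(B_σ)` and the same for `b`,
restricted to the characters in the blocks of the stabilisers which see `N⟨y⟩ ∖ N`, are equal for all
defects `d`, all residues `κ` and all sets `S` of automorphisms of `ℂ`; these sums are zero if `H` has
a normal `p`-subgroup which is not contained in `Z₀`;
(4) if the centre of a defect group of `B` meets `N⟨y⟩` outside `N` then `b` is the only block of `H`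
with `b^G = B` and the full alternating sums for `(G, B, d, κ, S)` and `(H, b, d, κ, S)` are equal;
so Dade's ordinary conjecture, also with residues and with stabilisers in `Aut(ℂ)`, holds for `B` if
and only if it holds for `b`; and it holds if `H` has a normal `p`-subgroup which is not contained in
`Z₀`. -/
theorem result (G : Type) [Group G] [Fintype G] (p : ℕ) [hp : Fact p.Prime] (N H : Subgroup G)
    [N.Normal] (P : Sylow p G) (y : G) (hyp : Hyp p N y P H) (O : ValuationSubring ℂ)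
    (hO : (p : ℂ) ∈ O.nonunits) (Z₀ : Subgroup G) [Z₀.Normal] (hZ₀ : IsPGroup p Z₀)
    (B : Set (G → ℂ)) (hB : IsBlock O B) :
    Z₀ ≤ H ∧
    (¬ Meets p O N (N ⊔ Subgroup.zpowers y) B → ∀ (d : ℕ) (κ : ℤ) (S : Set (ℂ ≃+* ℂ)),
      (∀ (L : Subgroup G) (θ : L → ℂ), Counted p O d κ S B L θ →
        ¬ Sees p O N (N ⊔ Subgroup.zpowers y) L θ) ∧
      dadeSumSeeing p O N (N ⊔ Subgroup.zpowers y) Z₀ d κ S B = 0) ∧
    (Meets p O N (N ⊔ Subgroup.zpowers y) B → ∃ b : Set (H → ℂ),
      (IsBlock O b ∧ (∀ θ ∈ b, Induces O B θ) ∧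
        (∃ E : Subgroup H, IsDefectGroup p O b E ∧ IsDefectGroup p O B (E.map H.subtype) ∧
          ∃ z ∈ E, (z : G) ∈ N ⊔ Subgroup.zpowers y ∧ (z : G) ∉ N)) ∧
      (∀ b' : Set (H → ℂ), IsBlock O b' → (∀ θ ∈ b', Induces O B θ) →
        Meets p O (N.subgroupOf H) ((N ⊔ Subgroup.zpowers y).subgroupOf H) b' → b' = b) ∧
      (∀ (d : ℕ) (κ : ℤ) (S : Set (ℂ ≃+* ℂ)),
        dadeSumSeeing p O N (N ⊔ Subgroup.zpowers y) Z₀ d κ S B =
          dadeSumSeeing p O (N.subgroupOf H) ((N ⊔ Subgroup.zpowers y).subgroupOf H)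
            (Z₀.subgroupOf H) d κ S b ∧
        ((∃ E : Subgroup H, E.Normal ∧ IsPGroup p E ∧ ¬ E ≤ Z₀.subgroupOf H) →
          dadeSumSeeing p O N (N ⊔ Subgroup.zpowers y) Z₀ d κ S B = 0)) ∧
      (MeetsCentrally p O N (N ⊔ Subgroup.zpowers y) B →
        (∀ b' : Set (H → ℂ), IsBlock O b' → (∀ θ ∈ b', Induces O B θ) → b' = b) ∧
        ∀ (d : ℕ) (κ : ℤ) (S : Set (ℂ ≃+* ℂ)),
          dadeSum p O Z₀ d κ S B = dadeSum p O (Z₀.subgroupOf H) d κ S b ∧
          ((∃ E : Subgroup H, E.Normal ∧ IsPGroup p E ∧ ¬ E ≤ Z₀.subgroupOf H) →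
            dadeSum p O Z₀ d κ S B = 0))) := by
  obtain ⟨K, hKdef⟩ : ∃ K, K = N ⊔ Subgroup.zpowers y := ⟨_, rfl⟩
  have td : Pool.Agent.Q17.TC.TD p N y H P := ⟨inferInstance, hyp.1.2.1, hyp.1.2.2.1,
    hyp.1.2.2.2, hyp.1.1, hyp.2.1, hyp.2.2.1, hyp.2.2.2⟩
  rw [← hKdef]
  have hK : K.Normal := by
    rw [hKdef]
    exact td.nK
  have hN : N.Normal := inferInstance
  have hpl : ∀ (d : ℕ) (κ : ℤ) (S : Set (ℂ ≃+* ℂ)),
      @Pl G _ (dt p O N K d κ S) _ hN y H P Z₀ := by
    intro d κ S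
    have hN' : (dt p O N K d κ S).N.Normal := hN
    exact
    { d := td
      hK := hKdef
      hO := hO
      hZn := inferInstance
      hZp := hZ₀
      hZ := fun c hc g => by
        have h1 : c = 1 := Subgroup.mem_bot.mp hc
        rw [h1, one_mul, mul_one] }
  have hpc : ∀ (d : ℕ) (κ : ℤ) (S : Set (ℂ ≃+* ℂ)), Pc (dt p O N K d κ S) := fun d κ S =>
    { hab := Or.inl trivial
      hT := Or.inl trivial
      hT' := fun k n l m _ hn _ hm h1 h2 => by
        obtain ⟨δ, hδ, h3⟩ := h2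
        exact residue_iff hn hm h1 hδ h3 }
  refine ⟨@Pl.Z_le G _ _ (dt p O N K 0 0 ∅) hN hp y H P Z₀ (hpl 0 0 ∅) prt,
    fun hm d κ S => ⟨?_, ?_⟩, fun hm => ?_⟩
  · rintro L θ hθ ⟨x, hx, ho⟩
    refine hm (@mts_of G _ _ (dt p O N K d κ S) hp prt2 hO hN hK B hB L θ hθ.irr hθ.ind x hx
      fun h0 => ho ?_)
    unfold omega
    rw [h0, mul_zero, zero_div]
    exact O.nonunits.zero_mem
  · rw [sum_see]
    exact altX_zero_of (fun σ => @ct_zero_of_not G _ _ (dt p O N K d κ S) hN hp hO hK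
      (hpc d κ S) B hB hm _) p
  · obtain ⟨b, hb, hbi, hE, hu⟩ := @Pl.pack G _ _ (dt p O N K 0 0 ∅) hN hp y H P Z₀
      (hpl 0 0 ∅) B hB hm
    have hbi' : ∀ θ ∈ b, Induces O B θ := fun θ hθ χ hχ x => hbi χ hχ θ hθ x
    have hmb : Meets p O (N.subgroupOf H) (K.subgroupOf H) b := by
      obtain ⟨E, hE1, -, z, hz, hzK, hzN⟩ := hE
      exact ⟨E, hE1, z, hz, hzK, hzN⟩
    have hsee : ∀ (d : ℕ) (κ : ℤ) (S : Set (ℂ ≃+* ℂ)), dadeSumSeeing p O N K Z₀ d κ S B =
        dadeSumSeeing p O (N.subgroupOf H) (K.subgroupOf H) (Z₀.subgroupOf H) d κ S b := by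
      intro d κ S
      rw [sum_see]
      refine (@Pl.main2 G _ _ (dt p O N K d κ S) hp hN y H P Z₀ (hpl d κ S) (hpc d κ S) prt2 B
        hB b hb hbi hmb).trans ?_
      refine (altX_congr fun σ _ => ct_res').trans ?_
      exact (sum_see p O (N.subgroupOf H) (K.subgroupOf H) (Z₀.subgroupOf H) d κ S b).symm
    have hzero : ∀ (d : ℕ) (κ : ℤ) (S : Set (ℂ ≃+* ℂ)),
        (∃ E : Subgroup H, E.Normal ∧ IsPGroup p E ∧ ¬ E ≤ Z₀.subgroupOf H) →
          dadeSumSeeing p O N K Z₀ d κ S B = 0 := by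
      rintro d κ S ⟨E, hE, hEp, hEZ⟩
      rw [sum_see]
      exact @Pl.zero G _ _ (dt p O N K d κ S) hN hp y H P Z₀ (hpl d κ S) (hpc d κ S) prt B hB
        E hE hEp hEZ
    refine ⟨b, ⟨hb, hbi', hE⟩, fun b' hb' hi' hm' => ?_,
      fun d κ S => ⟨hsee d κ S, hzero d κ S⟩, ?_⟩
    · obtain ⟨E, hE1, z, hz, hzK, hzN⟩ := hm'
      exact hu b' hb' (fun χ hχ θ hθ x => hi' θ hθ χ hχ x) ⟨E, hE1, z, hz, hzK, hzN⟩
    · rintro ⟨D, hD, z, hz, hzc, hzK, hzN⟩
      have hgood : ∀ (d : ℕ) (κ : ℤ) (S : Set (ℂ ≃+* ℂ)), good (dt p O N K d κ S) B :=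
        fun d κ S =>
        @good_of_defect G _ _ (dt p O N K d κ S) hp prt.mmz hO B hB D hD z hz hzc hzK hzN
      refine ⟨fun b' hb' hi' => ?_, fun d κ S => ⟨?_, fun hE' => ?_⟩⟩
      · exact @Pl.unique_good G _ _ (dt p O N K 0 0 ∅) hp hN y H P Z₀
          (hpl _ _ _) prt2 B hB (hgood _ _ _) b' b hb' (fun χ hχ θ hθ x => hi' θ hθ χ hχ x) hb
          hbi
      · rw [sum_good hN hK Z₀ d κ S hB (hgood d κ S), hsee d κ S]
        refine (sum_good (hN.subgroupOf H) (hK.subgroupOf H) _ d κ S hb ?_).symm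
        exact @good_res G _ _ (dt p O N K d κ S) hN hp prt.gdt hK B hB (hgood d κ S) H b hb hbi
      · rw [sum_good hN hK Z₀ d κ S hB (hgood d κ S)]
        exact hzero d κ S hE'

end Pool.Agent.Results.MP_3f89b9_al.RelativeResidues
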